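import Mathlib
import Pool.Agent.U448.LazyNum

set_option autoImplicit false

/-!
# `Δ(G) ≥ n - k²` does not imply `c_L(G) ≤ k`

The lazy game is the one of `Pool/Agent/Helper848/Lazy/Game.lean`: `LazyCops.LazyMove` (at most one
cop moves), `LazyCops.CopsWin` (the cops, to move, can force a capture) and
`LazyCops.lazyCopNumber` (the least number of cops that wins).

For every `k ≥ 2` and every `n ≥ C k (log k)^(3/2)` there is a connected graph on `n` vertices with
maximum degree at least `n - C k (log k)^(3/2)` and lazy cop number larger than `k`.  So for all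
large `k` and all `n ≥ k ^ 2` there is a counterexample to the conjecture on exactly `n` vertices.

Proof.  The `d`-dimensional hypercube has lazy cop number at least `c 2^d / d^(3/2)`, so some
hypercube on at most `C k (log k)^(3/2)` vertices needs more than `k` lazy cops.  Attach pendant
vertices to one of its vertices; the hypercube is a retract of the new graph, and retracts do not
increase the lazy cop number.
-/

namespace Pool.Agent.Results.MP_9f93d5_co.LazyConjectureFails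

open LazyCops

/-- The maximum degree of a finite graph. -/
noncomputable def maxDeg {V : Type*} [Fintype V] (G : SimpleGraph V) : ℕ := by
  classical exact G.maxDegree

theorem le_maxDeg {V : Type*} [Fintype V] (G : SimpleGraph V) (v : V) :
    (G.neighborSet v).ncard ≤ maxDeg G := by
  classical
  unfold maxDeg
  refine le_trans (le_of_eq ?_) (G.degree_le_maxDegree v)
  rw [← SimpleGraph.card_neighborSet_eq_degree, Set.ncard_eq_toFinset_card', Set.toFinset_card]

/-- The statement of Q1. -/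
def Conjecture : Prop :=
  ∀ k : ℕ, 1 ≤ k → ∀ (V : Type) [Fintype V] (G : SimpleGraph V), G.Connected →
    Fintype.card V - k ^ 2 ≤ maxDeg G → lazyCopNumber G ≤ k

theorem quantitative : ∃ C : ℝ, 0 < C ∧ ∀ k n : ℕ, 2 ≤ k →
    C * (k * Real.log k ^ (3 / 2 : ℝ)) ≤ n →
    ∃ G : SimpleGraph (Fin n), G.Connected ∧
      (n : ℝ) - C * (k * Real.log k ^ (3 / 2 : ℝ)) ≤ maxDeg G ∧ k < lazyCopNumber G := by
  obtain ⟨C, hC, h⟩ := Pool.Agent.U448.LazyNum.exists_dim
  refine ⟨C, hC, fun k n hk hn => ?_⟩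
  obtain ⟨d, hd, hlt⟩ := h k hk
  have hcard : Fintype.card (Fin d → Bool) = 2 ^ d := by simp
  have hle : Fintype.card (Fin d → Bool) ≤ n := by
    rw [hcard]
    have : (2 : ℝ) ^ d ≤ n := hd.trans hn
    exact_mod_cast this
  obtain ⟨G, h1, ⟨v, hv⟩, h2⟩ := Pool.Agent.U448.LazyRetract.exists_extension (hypercube d)
    (Pool.Agent.U448.LazyNum.hypercube_connected d) n hle
  refine ⟨G, h1, ?_, hlt.trans_le h2⟩
  have h3 : n ≤ maxDeg G + 2 ^ d := by
    rw [← hcard]
    exact hv.trans (by have := le_maxDeg G v; omega)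
  have h4 : (n : ℝ) ≤ maxDeg G + 2 ^ d := by exact_mod_cast h3
  linarith

theorem eventually_small (C : ℝ) : ∃ K : ℕ, ∀ k : ℕ, K ≤ k →
    C * (k * Real.log k ^ (3 / 2 : ℝ)) ≤ ((k ^ 2 : ℕ) : ℝ) := by
  have h1 : (fun x : ℝ => Real.log x ^ (3 / 2 : ℝ)) =o[Filter.atTop] fun x : ℝ => x ^ (1 : ℝ) :=
    isLittleO_log_rpow_rpow_atTop (3 / 2) (by norm_num)
  have h2 := (Asymptotics.isLittleO_iff.mp h1) (show (0 : ℝ) < 1 / (|C| + 1) by positivity)
  obtain ⟨X, hX⟩ := Filter.eventually_atTop.mp h2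
  refine ⟨max 1 ⌈X⌉₊, fun k hk => ?_⟩
  have hk1 : 1 ≤ k := (le_max_left _ _).trans hk
  have hkX : X ≤ k := (Nat.le_ceil X).trans (by exact_mod_cast (le_max_right _ _).trans hk)
  have h3 := hX k hkX
  have hk0 : (0 : ℝ) ≤ k := Nat.cast_nonneg k
  have hlog : 0 ≤ Real.log k ^ (3 / 2 : ℝ) :=
    Real.rpow_nonneg (Real.log_nonneg (by exact_mod_cast hk1)) _
  rw [Real.rpow_one, Real.norm_of_nonneg hlog, Real.norm_of_nonneg hk0, div_mul_eq_mul_div,
    one_mul, le_div_iff₀ (by positivity)] at h3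
  have h4 : C * Real.log k ^ (3 / 2 : ℝ) ≤ k := by
    have h5 : C * Real.log k ^ (3 / 2 : ℝ) ≤ (|C| + 1) * Real.log k ^ (3 / 2 : ℝ) :=
      mul_le_mul_of_nonneg_right ((le_abs_self C).trans (by linarith)) hlog
    linarith
  push_cast
  calc C * (k * Real.log k ^ (3 / 2 : ℝ)) = k * (C * Real.log k ^ (3 / 2 : ℝ)) := by ring
    _ ≤ k * k := mul_le_mul_of_nonneg_left h4 hk0
    _ = (k : ℝ) ^ 2 := by ring

/-- **Q1 is false, for all large `k` and all `n ≥ k ^ 2`.**  (1) For some constant `C > 0`, all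
`k ≥ 2` and all `n ≥ C k (log k)^(3/2)`, there is a connected graph on `n` vertices with maximum
degree at least `n - C k (log k)^(3/2)` and lazy cop number at least `k + 1`.  (2) There is `K` such
that for all `k ≥ K` and all `n ≥ k ^ 2` there is a connected graph on `n` vertices with maximum
degree at least `n - k ^ 2` and lazy cop number at least `k + 1`.  (3) So the statement of Q1 is
false. -/
theorem result :
    (∃ C : ℝ, 0 < C ∧ ∀ k n : ℕ, 2 ≤ k → C * (k * Real.log k ^ (3 / 2 : ℝ)) ≤ n →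
      ∃ G : SimpleGraph (Fin n), G.Connected ∧
        (n : ℝ) - C * (k * Real.log k ^ (3 / 2 : ℝ)) ≤ maxDeg G ∧ k + 1 ≤ lazyCopNumber G) ∧
    (∃ K : ℕ, ∀ k n : ℕ, K ≤ k → k ^ 2 ≤ n →
      ∃ G : SimpleGraph (Fin n), G.Connected ∧ n - k ^ 2 ≤ maxDeg G ∧ k + 1 ≤ lazyCopNumber G) ∧
    ¬ Conjecture := by
  have hlarge : ∃ K : ℕ, ∀ k n : ℕ, K ≤ k → k ^ 2 ≤ n →
      ∃ G : SimpleGraph (Fin n), G.Connected ∧ n - k ^ 2 ≤ maxDeg G ∧
        k + 1 ≤ lazyCopNumber G := by
    obtain ⟨C, hC, h⟩ := quantitative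
    obtain ⟨K, hK⟩ := eventually_small C
    refine ⟨max K 2, fun k n hk hn => ?_⟩
    have h1 := hK k ((le_max_left _ _).trans hk)
    have h2 : ((k ^ 2 : ℕ) : ℝ) ≤ n := by exact_mod_cast hn
    obtain ⟨G, h3, h4, h5⟩ := h k n ((le_max_right _ _).trans hk) (h1.trans h2)
    refine ⟨G, h3, ?_, h5⟩
    have h6 : (n : ℝ) ≤ maxDeg G + (k ^ 2 : ℕ) := by linarith
    have h7 : n ≤ maxDeg G + k ^ 2 := by exact_mod_cast h6
    omega
  refine ⟨quantitative, hlarge, fun hconj => ?_⟩
  obtain ⟨K, hK⟩ := hlarge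
  obtain ⟨G, h1, h2, h3⟩ := hK (K + 1) ((K + 1) ^ 2) (by omega) le_rfl
  have h4 := hconj (K + 1) (by omega) (Fin ((K + 1) ^ 2)) G h1 (by rwa [Fintype.card_fin])
  omega

end Pool.Agent.Results.MP_9f93d5_co.LazyConjectureFails
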